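import Mathlib

set_option autoImplicit false

namespace Pool.Agent.helper51.Euler

open Finset

/-- set of descents of a permutation -/
def D {n : ℕ} (σ : Equiv.Perm (Fin n)) : Finset (Fin n × Fin n) :=
  (Finset.univ : Finset (Fin n × Fin n)).filter
    (fun p => p.2.val = p.1.val + 1 ∧ σ p.2 < σ p.1)

/-- insertion of the maximum at position `i` -/
def ins {n : ℕ} (i : Fin (n + 1)) (τ : Equiv.Perm (Fin n)) : Equiv.Perm (Fin (n + 1)) :=
  (finSuccEquiv' i).trans ((Equiv.optionCongr τ).trans (finSuccEquiv' (Fin.last n)).symm)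

theorem ins_self {n : ℕ} (i : Fin (n + 1)) (τ : Equiv.Perm (Fin n)) :
    ins i τ i = Fin.last n := by
  simp [ins]

theorem ins_succAbove {n : ℕ} (i : Fin (n + 1)) (τ : Equiv.Perm (Fin n)) (j : Fin n) :
    ins i τ (i.succAbove j) = (τ j).castSucc := by
  simp [ins]

theorem ins_injective (n : ℕ) :
    Function.Injective (fun p : Fin (n + 1) × Equiv.Perm (Fin n) => ins p.1 p.2) := by
  rintro ⟨i, τ⟩ ⟨i', τ'⟩ h
  simp only at h
  have h1 : ins i τ i = ins i τ i' := by
    rw [ins_self]
    rw [h, ins_self]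
  have hi : i = i' := (ins i τ).injective h1
  subst hi
  refine Prod.ext rfl ?_
  ext j
  have h2 := congrArg (fun e : Equiv.Perm (Fin (n + 1)) => e (i.succAbove j)) h
  simp only [ins_succAbove] at h2
  have h3 := congrArg Fin.val h2
  simpa using h3

theorem ins_bijective (n : ℕ) :
    Function.Bijective (fun p : Fin (n + 1) × Equiv.Perm (Fin n) => ins p.1 p.2) := by
  rw [Fintype.bijective_iff_injective_and_card]
  refine ⟨ins_injective n, ?_⟩
  simp [Fintype.card_perm, Nat.factorial_succ]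

theorem sum_ins {n : ℕ} (g : Equiv.Perm (Fin (n + 1)) → ℝ) :
    ∑ σ, g σ = ∑ τ : Equiv.Perm (Fin n), ∑ i : Fin (n + 1), g (ins i τ) := by
  rw [Finset.sum_comm, ← Finset.sum_product']
  rw [Finset.univ_product_univ]
  exact ((ins_bijective n).sum_comp g).symm

/-- number of descents ending at position `i` -/
def c {n : ℕ} (τ : Equiv.Perm (Fin n)) (i : ℕ) : ℕ :=
  ((D τ).filter (fun p => p.2.val = i)).card

theorem c_le_one {n : ℕ} (τ : Equiv.Perm (Fin n)) (i : ℕ) : c τ i ≤ 1 := by
  unfold c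
  rw [Finset.card_le_one]
  rintro ⟨a, b⟩ ha ⟨a', b'⟩ hb
  simp only [D, Finset.mem_filter, Finset.mem_univ, true_and] at ha hb
  have h1 : a = a' := by
    apply Fin.ext; omega
  have h2 : b = b' := by
    apply Fin.ext; omega
  rw [h1, h2]

theorem c_last {n : ℕ} (τ : Equiv.Perm (Fin n)) : c τ n = 0 := by
  unfold c
  rw [Finset.card_eq_zero, Finset.filter_eq_empty_iff]
  rintro ⟨a, b⟩ _
  have := b.isLt
  simp only
  omega

theorem sum_c {n : ℕ} (τ : Equiv.Perm (Fin n)) :
    ∑ i : Fin n, c τ i.val = (D τ).card := by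
  unfold c
  rw [Finset.card_eq_sum_card_fiberwise (f := fun p : Fin n × Fin n => p.2) (t := Finset.univ)]
  · apply Finset.sum_congr rfl
    intro i _
    congr 1
    apply Finset.filter_congr
    intro p _
    rw [Fin.ext_iff]
  · intro p _
    simp

theorem D_ins {n : ℕ} (i : Fin (n + 1)) (τ : Equiv.Perm (Fin n)) :
    (D (ins i τ)).card = (if i.val < n then 1 else 0) +
      ((D τ).filter (fun p => p.2.val ≠ i.val)).card := by
  have hsplit : D (ins i τ) =
      ((D (ins i τ)).filter (fun p => p.1 = i)) ∪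
      (((D τ).filter (fun p => p.2.val ≠ i.val)).image
        (fun p : Fin n × Fin n => (i.succAbove p.1, i.succAbove p.2))) := by
    ext ⟨a, b⟩
    simp only [Finset.mem_union, Finset.mem_filter, Finset.mem_image, D, Finset.mem_univ,
      true_and, Prod.mk.injEq, Prod.exists]
    constructor
    · rintro ⟨hab, hlt⟩
      by_cases ha : a = i
      · left; exact ⟨⟨hab, hlt⟩, ha⟩
      · right
        have hb : b ≠ i := by
          rintro rfl
          rw [ins_self] at hlt
          exact absurd (Fin.le_last _) (not_le.mpr hlt)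
        obtain ⟨a', rfl⟩ := Fin.exists_succAbove_eq ha
        obtain ⟨b', rfl⟩ := Fin.exists_succAbove_eq hb
        refine ⟨a', b', ?_, rfl, rfl⟩
        rw [ins_succAbove, ins_succAbove, Fin.castSucc_lt_castSucc_iff] at hlt
        have hab' : b'.val = a'.val + 1 ∧ b'.val ≠ i.val := by
          simp only [Fin.succAbove, Fin.lt_def] at hab
          split_ifs at hab <;> simp at * <;> omega
        exact ⟨⟨hab'.1, hlt⟩, hab'.2⟩
    · rintro (⟨h, _⟩ | ⟨a', b', ⟨⟨hab, hlt⟩, hne⟩, rfl, rfl⟩)
      · exact h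
      · refine ⟨?_, ?_⟩
        · simp only [Fin.succAbove, Fin.lt_def]
          split_ifs <;> simp at * <;> omega
        · rw [ins_succAbove, ins_succAbove, Fin.castSucc_lt_castSucc_iff]
          exact hlt
  have hdisj : Disjoint ((D (ins i τ)).filter (fun p => p.1 = i))
      (((D τ).filter (fun p => p.2.val ≠ i.val)).image
        (fun p : Fin n × Fin n => (i.succAbove p.1, i.succAbove p.2))) := by
    rw [Finset.disjoint_left]
    rintro ⟨a, b⟩ h1 h2
    simp only [Finset.mem_filter, Finset.mem_image, Prod.mk.injEq, Prod.exists] at h1 h2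
    obtain ⟨_, ha⟩ := h1
    obtain ⟨a', b', _, h3, _⟩ := h2
    rw [ha] at h3
    exact Fin.succAbove_ne i a' h3
  rw [hsplit, Finset.card_union_of_disjoint hdisj]
  congr 1
  · split_ifs with hi
    · rw [Finset.card_eq_one]
      refine ⟨(i, ⟨i.val + 1, by omega⟩), ?_⟩
      ext ⟨a, b⟩
      simp only [D, Finset.mem_filter, Finset.mem_univ, true_and, Finset.mem_singleton,
        Prod.mk.injEq]
      constructor
      · rintro ⟨⟨hab, _⟩, rfl⟩
        exact ⟨rfl, Fin.ext hab⟩
      · rintro ⟨rfl, rfl⟩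
        refine ⟨⟨rfl, ?_⟩, rfl⟩
        rw [ins_self]
        apply lt_of_le_of_ne (Fin.le_last _)
        intro h
        have h' : ins a τ ⟨a.val + 1, by omega⟩ = ins a τ a := by rw [h, ins_self]
        have := congrArg Fin.val ((ins a τ).injective h')
        simp at this
    · rw [Finset.card_eq_zero, Finset.filter_eq_empty_iff]
      rintro ⟨a, b⟩ hab rfl
      simp only [D, Finset.mem_filter, Finset.mem_univ, true_and] at hab
      have := b.isLt
      simp only at hi
      omega
  · rw [Finset.card_image_of_injective]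
    rintro ⟨a, b⟩ ⟨a', b'⟩ h
    simp only [Prod.mk.injEq] at h
    rw [Fin.succAbove_right_injective.eq_iff, Fin.succAbove_right_injective.eq_iff] at h
    rw [h.1, h.2]

theorem D_ins' {n : ℕ} (i : Fin (n + 1)) (τ : Equiv.Perm (Fin n)) :
    (D (ins i τ)).card + c τ i.val = (if i.val < n then 1 else 0) + (D τ).card := by
  rw [D_ins]
  have := Finset.card_filter_add_card_filter_not (s := D τ) (fun p => p.2.val = i.val)
  unfold c
  simp only [ne_eq] at *
  omega

theorem sum_insert {n : ℕ} (τ : Equiv.Perm (Fin n)) (f : ℕ → ℝ) :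
    ∑ i : Fin (n + 1), f (D (ins i τ)).card =
      (((D τ).card : ℝ) + 1) * f (D τ).card + ((n : ℝ) - (D τ).card) * f ((D τ).card + 1) := by
  rw [Fin.sum_univ_castSucc]
  have hlast : (D (ins (Fin.last n) τ)).card = (D τ).card := by
    have := D_ins' (Fin.last n) τ
    simp only [Fin.val_last, lt_irrefl, if_false, c_last] at this
    omega
  have hi : ∀ i : Fin n, f (D (ins i.castSucc τ)).card =
      (c τ i.val : ℝ) * f (D τ).card + (1 - (c τ i.val : ℝ)) * f ((D τ).card + 1) := by
    intro i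
    have h := D_ins' i.castSucc τ
    simp only [Fin.val_castSucc, i.isLt, if_true] at h
    have hc := c_le_one τ i.val
    interval_cases hcc : c τ i.val
    · have : (D (ins i.castSucc τ)).card = (D τ).card + 1 := by omega
      rw [this]; simp
    · have : (D (ins i.castSucc τ)).card = (D τ).card := by omega
      rw [this]; simp
  rw [hlast, Finset.sum_congr rfl (fun i _ => hi i), Finset.sum_add_distrib, ← Finset.sum_mul,
    ← Finset.sum_mul, Finset.sum_sub_distrib]
  have hs : ∑ i : Fin n, (c τ i.val : ℝ) = ((D τ).card : ℝ) := by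
    exact_mod_cast sum_c τ
  rw [hs]
  simp
  ring

theorem card_D_le {n : ℕ} (σ : Equiv.Perm (Fin n)) : (D σ).card ≤ n := by
  rw [← sum_c]
  calc ∑ i : Fin n, c σ i.val ≤ ∑ i : Fin n, 1 := Finset.sum_le_sum (fun i _ => c_le_one σ _)
    _ = n := by simp

theorem sum_form {n : ℕ} (x : ℕ → ℝ) :
    (∑ k ∈ Finset.range (n + 1),
      (((Finset.univ : Finset (Equiv.Perm (Fin n))).filter
        (fun σ => (D σ).card = k)).card : ℝ) * x k) =
    ∑ σ : Equiv.Perm (Fin n), x (D σ).card := by
  rw [← Finset.sum_fiberwise_of_maps_to (s := (Finset.univ : Finset (Equiv.Perm (Fin n))))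
    (t := Finset.range (n + 1)) (g := fun σ => (D σ).card)]
  · apply Finset.sum_congr rfl
    intro k _
    rw [Finset.sum_congr rfl (g := fun _ => x k)]
    · simp
    · intro σ hσ
      rw [(Finset.mem_filter.mp hσ).2]
  · intro σ _
    exact Finset.mem_range.mpr (Nat.lt_succ_of_le (card_D_le σ))

theorem main (x : ℕ → ℝ) (h0 : ∀ n, 0 ≤ x n) (hx : ∀ k, x (k + 1) ^ 2 ≤ x k * x (k + 2))
    (n : ℕ) :
    (∑ σ : Equiv.Perm (Fin (n + 1)), x (D σ).card) ^ 2 ≤
      (∑ σ : Equiv.Perm (Fin n), x (D σ).card) *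
        (∑ σ : Equiv.Perm (Fin (n + 2)), x (D σ).card) := by
  have e1 : ∑ σ : Equiv.Perm (Fin (n + 1)), x (D σ).card =
      ∑ τ : Equiv.Perm (Fin n), ((((D τ).card : ℝ) + 1) * x (D τ).card +
        ((n : ℝ) - (D τ).card) * x ((D τ).card + 1)) := by
    rw [sum_ins]
    exact Finset.sum_congr rfl (fun τ _ => sum_insert τ x)
  have e2 : ∑ σ : Equiv.Perm (Fin (n + 2)), x (D σ).card =
      ∑ τ : Equiv.Perm (Fin n), ((((D τ).card : ℝ) + 1) *
          ((((D τ).card : ℝ) + 1) * x (D τ).card +
            ((n : ℝ) + 1 - (D τ).card) * x ((D τ).card + 1)) +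
        ((n : ℝ) - (D τ).card) *
          ((((D τ).card : ℝ) + 2) * x ((D τ).card + 1) +
            ((n : ℝ) - (D τ).card) * x ((D τ).card + 2))) := by
    rw [sum_ins]
    have e3 : ∀ τ : Equiv.Perm (Fin (n + 1)),
        ∑ i : Fin (n + 2), x (D (ins i τ)).card =
          (fun d : ℕ => ((d : ℝ) + 1) * x d + ((n : ℝ) + 1 - d) * x (d + 1)) (D τ).card := by
      intro τ
      rw [sum_insert τ x]
      push_cast
      ring
    rw [Finset.sum_congr rfl (fun τ _ => e3 τ), sum_ins]
    apply Finset.sum_congr rfl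
    intro τ _
    rw [sum_insert τ (fun d : ℕ => ((d : ℝ) + 1) * x d + ((n : ℝ) + 1 - d) * x (d + 1))]
    push_cast
    ring
  rw [e1, e2]
  have hd : ∀ τ : Equiv.Perm (Fin n), (0 : ℝ) ≤ (n : ℝ) - (D τ).card := by
    intro τ
    have : ((D τ).card : ℝ) ≤ n := by exact_mod_cast card_D_le τ
    linarith
  apply Finset.sum_sq_le_sum_mul_sum_of_sq_le_mul
  · intro τ _
    exact h0 _
  · intro τ _
    have h1 := hd τ
    have h2 := h0 (D τ).card
    have h3 := h0 ((D τ).card + 1)
    have h4 := h0 ((D τ).card + 2)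
    have h5 : (0 : ℝ) ≤ (n : ℝ) + 1 - (D τ).card := by linarith
    positivity
  · intro τ _
    have h1 := hd τ
    have h2 := h0 (D τ).card
    have h3 := h0 ((D τ).card + 1)
    have h6 := hx (D τ).card
    set d : ℝ := ((D τ).card : ℝ)
    set a := x (D τ).card
    set b := x ((D τ).card + 1)
    set e := x ((D τ).card + 2)
    have key : a * ((d + 1) * ((d + 1) * a + ((n : ℝ) + 1 - d) * b) +
        ((n : ℝ) - d) * ((d + 2) * b + ((n : ℝ) - d) * e)) -
        ((d + 1) * a + ((n : ℝ) - d) * b) ^ 2 =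
        ((n : ℝ) + 1) * (a * b) + ((n : ℝ) - d) ^ 2 * (a * e - b ^ 2) := by
      ring
    have h7 : 0 ≤ ((n : ℝ) + 1) * (a * b) := by positivity
    have h8 : 0 ≤ ((n : ℝ) - d) ^ 2 * (a * e - b ^ 2) :=
      mul_nonneg (sq_nonneg _) (by linarith)
    linarith

end Pool.Agent.helper51.Euler
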