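import Pool.Agent.helper23.HB.Stmts

open MeasureTheory ProbabilityTheory Set Filter Topology
open scoped ENNReal NNReal

namespace Pool.Agent.helper51.HB

open Pool.Agent.helper23.HB

/-! ## empirical measures -/

/-- the empirical measure of a finite family of points -/
noncomputable def emp {X : Type*} [MeasurableSpace X] (s : Finset Lab) (g : Lab → X) (x₀ : X) :
    Measure X :=
  open Classical in
  if s.Nonempty then (s.card : ℝ≥0∞)⁻¹ • ∑ v ∈ s, Measure.dirac (g v) else Measure.dirac x₀

instance emp_prob {X : Type*} [MeasurableSpace X] (s : Finset Lab) (g : Lab → X) (x₀ : X) :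
    IsProbabilityMeasure (emp s g x₀) := by
  unfold emp
  split_ifs with h
  · constructor
    rw [Measure.smul_apply, Measure.finsetSum_apply, smul_eq_mul]
    simp only [measure_univ, Finset.sum_const, nsmul_eq_mul, mul_one]
    refine ENNReal.inv_mul_cancel ?_ (ENNReal.natCast_ne_top _)
    simpa using h.ne_empty
  · infer_instance

theorem integral_emp {X : Type*} [MeasurableSpace X] [MeasurableSingletonClass X]
    {s : Finset Lab} (hs : s.Nonempty) (g : Lab → X) (x₀ : X) (f : X → ℝ) :
    ∫ x, f x ∂(emp s g x₀) = (s.card : ℝ)⁻¹ * ∑ v ∈ s, f (g v) := by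
  unfold emp
  rw [if_pos hs, integral_smul_measure, integral_finsetSum_measure]
  · simp only [integral_dirac, smul_eq_mul]
    rw [ENNReal.toReal_inv, ENNReal.toReal_natCast]
  · intro i _
    exact integrable_dirac (by simp)

/-! ## convergence of averages of functions of the ancestors -/

section

variable {β : ℝ} {τ : Lab → ℝ}

/-- the particles alive at time `t` as a finset -/
noncomputable def AA (h : NE τ) (t : ℝ) : Finset Lab := (h.finite_Alive t).toFinset

theorem mem_AA (h : NE τ) {t : ℝ} {v : Lab} : v ∈ AA h t ↔ v ∈ Alive τ t := by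
  unfold AA
  rw [Set.Finite.mem_toFinset]

theorem AA_nonempty (h : NE τ) {t : ℝ} (ht : 0 ≤ t) : (AA h t).Nonempty := by
  have h0 : ([] : Lab) ∈ Alive τ 0 := by
    rw [mem_Alive]
    exact ⟨by rw [birth_nil], death_pos h.1 []⟩
  obtain ⟨p, hp⟩ := h.exists_desc ht h0
  exact ⟨_, (mem_AA h).2 hp⟩

theorem avg_eq (h : NE τ) (t : ℝ) (F : Lab → ℝ) :
    avg τ t F = ((AA h t).card : ℝ)⁻¹ * ∑ v ∈ AA h t, F v := by
  unfold avg
  rw [finsum_mem_eq_finite_toFinset_sum _ (h.finite_Alive t), Set.ncard_eq_toFinset_card _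
    (h.finite_Alive t)]
  rfl

theorem card_AA (h : NE τ) (t : ℝ) : ((AA h t).card : ℝ) = ((Alive τ t).ncard : ℝ) := by
  rw [Set.ncard_eq_toFinset_card _ (h.finite_Alive t)]
  rfl

/-- number of descendants -/
theorem card_desc (h : NE τ) {m t : ℝ} {u : Lab} (hu : u ∈ Alive τ m) :
    ((AA h t).filter (fun v => anc τ m v = u)).card =
      (Alive (sh u τ) (t - birth τ u)).ncard := by
  have h1 : (((AA h t).filter (fun v => anc τ m v = u) : Finset Lab) : Set Lab) =
      (fun p => p ++ u) '' (Alive (sh u τ) (t - birth τ u)) := by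
    ext v
    simp only [Finset.coe_filter, mem_AA, Set.mem_ofPred_eq, Set.mem_image]
    constructor
    · rintro ⟨hv, hanc⟩
      obtain ⟨p, hp⟩ := anc_suffix τ m v
      rw [hanc] at hp
      refine ⟨p, ?_, hp⟩
      rw [← append_mem_Alive, hp, add_sub_cancel]
      exact hv
    · rintro ⟨p, hp, rfl⟩
      rw [← append_mem_Alive, add_sub_cancel] at hp
      exact ⟨hp, anc_append h.1 hu p⟩
  rw [← Set.ncard_coe_finset, h1, Set.ncard_image_of_injective _
    (fun p q hpq => List.append_cancel_right hpq)]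

theorem tendsto_anc (h : NE τ) (w : Lab → ℝ)
    (hw : ∀ u, Tendsto (fun t : ℝ =>
      Real.exp (-β * t) * ((Alive (sh u τ) t).ncard : ℝ)) atTop (𝓝 (w u)))
    (m : ℕ) (φ : Lab → ℝ) :
    ∃ l : ℝ, Tendsto (fun t : ℝ => Real.exp (-β * t) * ∑ v ∈ AA h t, φ (anc τ m v)) atTop (𝓝 l) := by
  refine ⟨∑ u ∈ AA h m, φ u * (Real.exp (-β * birth τ u) * w u), ?_⟩
  have h1 : Tendsto (fun t : ℝ => ∑ u ∈ AA h m, φ u * (Real.exp (-β * birth τ u) *
      (Real.exp (-β * (t - birth τ u)) * ((Alive (sh u τ) (t - birth τ u)).ncard : ℝ)))) atTop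
      (𝓝 (∑ u ∈ AA h m, φ u * (Real.exp (-β * birth τ u) * w u))) := by
    refine tendsto_finsetSum _ fun u _ => ?_
    refine Tendsto.const_mul _ (Tendsto.const_mul _ ?_)
    have h2 : Tendsto (fun t : ℝ => t - birth τ u) atTop atTop :=
      tendsto_atTop_add_const_right _ _ tendsto_id
    exact (hw u).comp h2
  refine h1.congr' ?_
  filter_upwards [eventually_ge_atTop (m : ℝ)] with t ht
  have h3 : ∀ v ∈ AA h t, anc τ m v ∈ AA h m := by
    intro v hv
    rw [mem_AA] at hv ⊢
    exact anc_mem (Nat.cast_nonneg m) (ht.trans_lt hv.2)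
  rw [← Finset.sum_fiberwise_of_maps_to h3, Finset.mul_sum]
  refine Finset.sum_congr rfl fun u hu => ?_
  have h4 : ∑ v ∈ (AA h t).filter (fun v => anc τ m v = u), φ (anc τ m v) =
      ((AA h t).filter (fun v => anc τ m v = u)).card * φ u := by
    rw [Finset.sum_congr rfl (g := fun _ => φ u), Finset.sum_const, nsmul_eq_mul]
    intro v hv
    rw [(Finset.mem_filter.1 hv).2]
  rw [h4, card_desc h ((mem_AA h).1 hu)]
  have h5 : Real.exp (-β * t) = Real.exp (-β * birth τ u) * Real.exp (-β * (t - birth τ u)) := by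
    rw [← Real.exp_add]
    congr 1
    ring
  rw [h5]
  ring

end

theorem mE5D : St_E5D := by
  intro β τ Z D hβ h hW hN hE
  choose w hw0 hw using hW
  obtain ⟨e, he0, he⟩ := hE
  -- normalised population
  have hX : Tendsto (fun t : ℝ => Real.exp (-β * t) * ((AA h t).card : ℝ)) atTop (𝓝 (w [])) := by
    have := hw []
    rw [sh_nil] at this
    simpa only [card_AA h] using this
  -- bound on the differences
  have hbd : ∀ (m : ℕ) (t : ℝ), (m : ℝ) ≤ t → e m ≠ ∞ →
      Real.exp (-β * t) * ∑ v ∈ AA h t, (‖Z v t - D (anc τ m v) m‖ + ‖D v t - D (anc τ m v) m‖) ≤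
        (e m).toReal := by
    intro m t hmt hem
    have h1 := he m t hmt
    have h2 : ∑' v : Lab, ind (v ∈ Alive τ t) *
        (‖Z v t - D (anc τ m v) m‖ₑ + ‖D v t - D (anc τ m v) m‖ₑ) =
        ENNReal.ofReal (∑ v ∈ AA h t,
          (‖Z v t - D (anc τ m v) m‖ + ‖D v t - D (anc τ m v) m‖)) := by
      rw [tsum_eq_sum (s := AA h t), ENNReal.ofReal_sum_of_nonneg]
      · refine Finset.sum_congr rfl fun v hv => ?_
        rw [ind_true ((mem_AA h).1 hv), one_mul, ENNReal.ofReal_add (norm_nonneg _)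
          (norm_nonneg _), ofReal_norm, ofReal_norm]
      · intro v _
        positivity
      · intro v hv
        rw [ind_false (fun h' => hv ((mem_AA h).2 h')), zero_mul]
    rw [h2, ← ENNReal.ofReal_mul (Real.exp_pos _).le] at h1
    rw [← ENNReal.ofReal_le_iff_le_toReal hem]
    exact h1
  -- the key estimate for Lipschitz functions
  have hkey : ∀ (f : ℂ → ℝ) (L : ℝ≥0), LipschitzWith L f → ∃ l : ℝ,
      Tendsto (fun t : ℝ => avg τ t (fun v => f (Z v t))) atTop (𝓝 l) ∧
      Tendsto (fun t : ℝ => avg τ t (fun v => f (D v t))) atTop (𝓝 l) := by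
    intro f L hf
    have hfin : ∀ᶠ m in atTop, e m ≠ ∞ := by
      have := he0.eventually (gt_mem_nhds (show (0 : ℝ≥0∞) < 1 by norm_num))
      filter_upwards [this] with m hm
      exact (hm.trans ENNReal.one_lt_top).ne
    have he0' : Tendsto (fun m => (e m).toReal) atTop (𝓝 0) := by
      have := (ENNReal.tendsto_toReal ENNReal.zero_ne_top).comp he0
      rw [ENNReal.toReal_zero] at this
      exact this
    set a : ℝ → ℝ := fun t => Real.exp (-β * t) * ∑ v ∈ AA h t, f (D v t) with ha
    set b : ℝ → ℝ := fun t => Real.exp (-β * t) * ∑ v ∈ AA h t, f (Z v t) with hb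
    have hdist : ∀ (m : ℕ) (t : ℝ), (m : ℝ) ≤ t → e m ≠ ∞ →
        |a t - Real.exp (-β * t) * ∑ v ∈ AA h t, f (D (anc τ m v) m)| ≤ L * (e m).toReal ∧
        |b t - Real.exp (-β * t) * ∑ v ∈ AA h t, f (D (anc τ m v) m)| ≤ L * (e m).toReal := by
      intro m t hmt hem
      have h1 := hbd m t hmt hem
      have hexp := (Real.exp_pos (-β * t)).le
      have h2 : ∀ (G : Lab → ℂ), (∀ v, ‖G v - D (anc τ m v) m‖ ≤
          ‖Z v t - D (anc τ m v) m‖ + ‖D v t - D (anc τ m v) m‖) →
          |Real.exp (-β * t) * ∑ v ∈ AA h t, f (G v) -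
            Real.exp (-β * t) * ∑ v ∈ AA h t, f (D (anc τ m v) m)| ≤ L * (e m).toReal := by
        intro G hG
        rw [← mul_sub, ← Finset.sum_sub_distrib, abs_mul, abs_of_nonneg hexp]
        calc Real.exp (-β * t) * |∑ v ∈ AA h t, (f (G v) - f (D (anc τ m v) m))|
            ≤ Real.exp (-β * t) * ∑ v ∈ AA h t, |f (G v) - f (D (anc τ m v) m)| := by
              gcongr
              exact Finset.abs_sum_le_sum_abs _ _
          _ ≤ Real.exp (-β * t) * ∑ v ∈ AA h t, L * (‖Z v t - D (anc τ m v) m‖ +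
                ‖D v t - D (anc τ m v) m‖) := by
              gcongr with v hv
              have h3 := hf.dist_le_mul (G v) (D (anc τ m v) m)
              rw [Real.dist_eq, dist_eq_norm] at h3
              exact h3.trans (mul_le_mul_of_nonneg_left (hG v) L.2)
          _ = L * (Real.exp (-β * t) * ∑ v ∈ AA h t, (‖Z v t - D (anc τ m v) m‖ +
                ‖D v t - D (anc τ m v) m‖)) := by
              rw [← Finset.mul_sum]; ring
          _ ≤ L * (e m).toReal := by gcongr
      exact ⟨h2 (fun v => D v t) (fun v => by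
        have := norm_nonneg (Z v t - D (anc τ m v) m); linarith),
        h2 (fun v => Z v t) (fun v => by
        have := norm_nonneg (D v t - D (anc τ m v) m); linarith)⟩
    -- smallness
    have hsmall : ∀ ε > 0, ∃ m : ℕ, e m ≠ ∞ ∧ L * (e m).toReal < ε := by
      intro ε hε
      have h1 : Tendsto (fun m => (L : ℝ) * (e m).toReal) atTop (𝓝 0) := by
        simpa using he0'.const_mul (L : ℝ)
      obtain ⟨m, hm1, hm2⟩ := (hfin.and (h1.eventually (gt_mem_nhds hε))).exists
      exact ⟨m, hm1, hm2⟩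
    have hcau : CauchySeq a := by
      rw [Metric.cauchySeq_iff]
      intro ε hε
      obtain ⟨m, hm1, hm2⟩ := hsmall (ε / 4) (by positivity)
      obtain ⟨l, hl⟩ := tendsto_anc h w hw m (fun u => f (D u m))
      obtain ⟨N, hN'⟩ := Metric.cauchySeq_iff.1 hl.cauchySeq (ε / 4) (by positivity)
      refine ⟨max N m, fun s hs t ht => ?_⟩
      have h1 := (hdist m s ((le_max_right _ _).trans hs) hm1).1
      have h2 := (hdist m t ((le_max_right _ _).trans ht) hm1).1
      have h3 := hN' s ((le_max_left _ _).trans hs) t ((le_max_left _ _).trans ht)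
      rw [Real.dist_eq] at h3 ⊢
      have h4 : a s - a t = (a s - Real.exp (-β * s) * ∑ v ∈ AA h s, f (D (anc τ m v) m)) +
        (Real.exp (-β * s) * ∑ v ∈ AA h s, f (D (anc τ m v) m) -
          Real.exp (-β * t) * ∑ v ∈ AA h t, f (D (anc τ m v) m)) -
        (a t - Real.exp (-β * t) * ∑ v ∈ AA h t, f (D (anc τ m v) m)) := by ring
      rw [h4]
      refine (abs_sub _ _).trans_lt ?_
      have h5 := abs_add_le (a s - Real.exp (-β * s) * ∑ v ∈ AA h s, f (D (anc τ m v) m))
        (Real.exp (-β * s) * ∑ v ∈ AA h s, f (D (anc τ m v) m) -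
          Real.exp (-β * t) * ∑ v ∈ AA h t, f (D (anc τ m v) m))
      linarith
    obtain ⟨l, hl⟩ := cauchySeq_tendsto_of_complete hcau
    have hba : Tendsto (fun t => b t - a t) atTop (𝓝 0) := by
      rw [Metric.tendsto_atTop]
      intro ε hε
      obtain ⟨m, hm1, hm2⟩ := hsmall (ε / 2) (by positivity)
      refine ⟨m, fun t ht => ?_⟩
      obtain ⟨h1, h2⟩ := hdist m t ht hm1
      rw [Real.dist_eq, sub_zero]
      have h4 : b t - a t = (b t - Real.exp (-β * t) * ∑ v ∈ AA h t, f (D (anc τ m v) m)) -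
        (a t - Real.exp (-β * t) * ∑ v ∈ AA h t, f (D (anc τ m v) m)) := by ring
      rw [h4]
      refine (abs_sub _ _).trans_lt ?_
      linarith
    have hlb : Tendsto b atTop (𝓝 l) := by
      have := hba.add hl
      simpa using this
    have hdiv : ∀ (G : ℝ → Lab → ℝ), (fun t => avg τ t (G t)) = fun t =>
        (Real.exp (-β * t) * ∑ v ∈ AA h t, G t v) / (Real.exp (-β * t) * ((AA h t).card : ℝ)) := by
      intro G
      funext t
      rw [avg_eq h]
      have := (Real.exp_pos (-β * t)).ne'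
      rw [mul_div_mul_left _ _ this, div_eq_inv_mul]
    refine ⟨l / w [], ?_, ?_⟩
    · rw [hdiv (fun t v => f (Z v t))]
      exact hlb.div hX (hw0 []).ne'
    · rw [hdiv (fun t v => f (D v t))]
      exact hl.div hX (hw0 []).ne'
  -- the empirical measures on the circle
  have hx₀ : (1 : ℂ) ∈ circ := by simp [circ]
  have : CompactSpace circ := isCompact_iff_compactSpace.1 (isCompact_sphere (0 : ℂ) 1)
  classical
  set Dc : ℕ → Lab → circ := fun n v => ⟨D v n, by
    rw [mem_sphere_iff_norm, sub_zero]; exact (hN v n (Nat.cast_nonneg n)).1⟩ with hDc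
  set ν : ℕ → ProbabilityMeasure circ := fun n => ⟨emp (AA h n) (Dc n) ⟨1, hx₀⟩, inferInstance⟩
    with hν
  set U : Ultrafilter (ProbabilityMeasure circ) := (hyperfilter ℕ).map ν with hU
  obtain ⟨μ₀, -, hμ₀⟩ := isCompact_univ.ultrafilter_le_nhds U (by simp)
  have hlimU : Tendsto ν (hyperfilter ℕ : Filter ℕ) (𝓝 μ₀) := hμ₀
  set μ : ProbabilityMeasure ℂ := ⟨(μ₀ : Measure circ).map Subtype.val,
    Measure.isProbabilityMeasure_map measurable_subtype_coe.aemeasurable⟩ with hμ
  have hcirc : MeasurableSet (circ : Set ℂ) := Metric.isClosed_sphere.measurableSet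
  have hμcirc : (μ : Measure ℂ) circᶜ = 0 := by
    change ((μ₀ : Measure circ).map Subtype.val) circᶜ = 0
    rw [Measure.map_apply measurable_subtype_coe hcirc.compl]
    have : (Subtype.val : circ → ℂ) ⁻¹' circᶜ = ∅ := by
      ext x
      simp only [mem_preimage, mem_compl_iff, mem_empty_iff_false, iff_false, not_not]
      exact x.2
    rw [this, measure_empty]
  have hU1 : (hyperfilter ℕ : Filter ℕ) ≤ atTop := by
    rw [← Nat.cofinite_eq_atTop]
    exact hyperfilter_le_cofinite
  -- identification of the limit for Lipschitz functions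
  have hident : ∀ (f : ℂ → ℝ), (∃ L, LipschitzWith L f) → ∀ l : ℝ,
      Tendsto (fun t : ℝ => avg τ t (fun v => f (D v t))) atTop (𝓝 l) →
      l = ∫ z, f z ∂(μ : Measure ℂ) := by
    rintro f ⟨L, hf⟩ l hl
    have h1 : Tendsto (fun n : ℕ => avg τ n (fun v => f (D v n))) (hyperfilter ℕ : Filter ℕ)
        (𝓝 l) := (hl.comp tendsto_natCast_atTop_atTop).mono_left hU1
    have h2 := (ProbabilityMeasure.tendsto_iff_forall_integral_tendsto.1 hlimU)
      (BoundedContinuousFunction.mkOfCompact ⟨fun x : circ => f x,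
        hf.continuous.comp continuous_subtype_val⟩)
    have h3 : ∀ n : ℕ, ∫ x, (BoundedContinuousFunction.mkOfCompact ⟨fun x : circ => f x,
        hf.continuous.comp continuous_subtype_val⟩) x ∂(ν n : Measure circ) =
        avg τ n (fun v => f (D v n)) := by
      intro n
      rw [avg_eq h]
      change ∫ x : circ, f x ∂(emp (AA h n) (Dc n) ⟨1, hx₀⟩) = _
      rw [integral_emp (AA_nonempty h (Nat.cast_nonneg n)) (Dc n) ⟨1, hx₀⟩ (fun x : circ => f x)]
    simp_rw [h3] at h2
    have h4 := tendsto_nhds_unique h1 h2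
    rw [h4]
    change ∫ x : circ, f x ∂(μ₀ : Measure circ) = ∫ z, f z ∂((μ₀ : Measure circ).map Subtype.val)
    rw [integral_map measurable_subtype_coe.aemeasurable hf.continuous.aestronglyMeasurable]
  -- conclusion
  have hmain : ∀ (F : Lab → ℝ → ℂ), (∀ f : ℂ → ℝ, (∃ L, LipschitzWith L f) →
      Tendsto (fun t : ℝ => avg τ t (fun v => f (F v t))) atTop (𝓝 (∫ z, f z ∂(μ : Measure ℂ)))) →
      IsLim τ F (μ : Measure ℂ) := by
    intro F hF
    refine ⟨inferInstance, hμcirc, fun f => ?_⟩
    set μs : ℝ → ProbabilityMeasure ℂ := fun t =>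
      ⟨emp (AA h t) (fun v => F v t) 0, inferInstance⟩ with hμs
    have hint : ∀ (f : ℂ → ℝ) (t : ℝ), 0 ≤ t → ∫ z, f z ∂(μs t : Measure ℂ) =
        avg τ t (fun v => f (F v t)) := by
      intro f t ht
      rw [avg_eq h]
      exact integral_emp (AA_nonempty h ht) (fun v => F v t) 0 f
    have h1 : Tendsto μs atTop (𝓝 μ) := by
      rw [tendsto_iff_forall_lipschitz_integral_tendsto]
      intro f _ hf
      refine (hF f hf).congr' ?_
      filter_upwards [eventually_ge_atTop (0 : ℝ)] with t ht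
      exact (hint f t ht).symm
    have h2 := (ProbabilityMeasure.tendsto_iff_forall_integral_tendsto.1 h1) f
    refine h2.congr' ?_
    filter_upwards [eventually_ge_atTop (0 : ℝ)] with t ht
    exact hint f t ht
  refine ⟨(μ : Measure ℂ), hmain Z ?_, hmain D ?_⟩
  · rintro f ⟨L, hf⟩
    obtain ⟨l, hl1, hl2⟩ := hkey f L hf
    rw [← hident f ⟨L, hf⟩ l hl2]
    exact hl1
  · rintro f ⟨L, hf⟩
    obtain ⟨l, hl1, hl2⟩ := hkey f L hf
    rw [← hident f ⟨L, hf⟩ l hl2]
    exact hl2

end Pool.Agent.helper51.HB
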